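import Pool.Agent.P.MP_408b1f_gt.Normal

/-! Planar convex bodies are successively determined by three X-rays. -/

open Set MeasureTheory

noncomputable section

namespace Pool.Agent.Results.MP_408b1f_gt.ThreeXRays

/-- a convex body of the Euclidean plane: compact, convex, with nonempty interior -/
def IsBody (K : Set (EuclideanSpace ℝ (Fin 2))) : Prop :=
  IsCompact K ∧ Convex ℝ K ∧ (interior K).Nonempty

/-- the line through the origin orthogonal to `u` -/
def Perp (u : EuclideanSpace ℝ (Fin 2)) : Type :=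
  {x : EuclideanSpace ℝ (Fin 2) // inner ℝ x u = 0}

/-- the X-ray of `K` in the direction `u`: for `x` orthogonal to `u`, the Lebesgue measure of
the set of real `t` with `x + t u` in `K` (the chord length when `u` is a unit vector) -/
def XRay (u : EuclideanSpace ℝ (Fin 2)) (K : Set (EuclideanSpace ℝ (Fin 2))) :
    Perp u → ENNReal :=
  fun x => volume {t : ℝ | x.1 + t • u ∈ K}

/-- coordinates -/
def co : EuclideanSpace ℝ (Fin 2) ≃L[ℝ] ℝ × ℝ :=
  (EuclideanSpace.equiv (Fin 2) ℝ).trans (ContinuousLinearEquiv.finTwoArrow ℝ ℝ)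

theorem body_co {K : Set (EuclideanSpace ℝ (Fin 2))} (h : IsBody K) : XR.Body (co '' K) := by
  refine ⟨h.2.1.linear_image (co : EuclideanSpace ℝ (Fin 2) →ₗ[ℝ] ℝ × ℝ),
    h.1.image co.continuous, ?_⟩
  have := co.toHomeomorph.image_interior K
  simp only [ContinuousLinearEquiv.coe_toHomeomorph] at this
  rw [← this]
  exact h.2.2.image _

theorem sameX_co {u : EuclideanSpace ℝ (Fin 2)} (hu : ‖u‖ = 1)
    {K L : Set (EuclideanSpace ℝ (Fin 2))} (h : XRay u K = XRay u L) :
    XR.SameX (co u) (co '' K) (co '' L) := by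
  intro p
  obtain ⟨q, rfl⟩ := co.surjective p
  have hx : inner ℝ (q - (inner ℝ q u : ℝ) • u) u = (0:ℝ) := by
    rw [inner_sub_left, real_inner_smul_left, real_inner_self_eq_norm_sq, hu]; ring
  have key : ∀ M : Set (EuclideanSpace ℝ (Fin 2)),
      XR.xray (co '' M) (co u) (co q) = XRay u M ⟨_, hx⟩ := by
    intro M
    have e : {t : ℝ | co q + t • co u ∈ co '' M} =
        (fun t => (inner ℝ q u : ℝ) + t) ⁻¹' {t : ℝ | (q - (inner ℝ q u : ℝ) • u) + t • u ∈ M} := by
      ext t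
      simp only [mem_preimage, mem_ofPred_eq]
      rw [← map_smul, ← map_add, co.injective.mem_set_image, add_smul]
      congr! 1
      abel
    rw [XR.xray, e, measure_preimage_add]
    rfl
  rw [key, key, h]

theorem exists_dir (u1 u2 : EuclideanSpace ℝ (Fin 2)) (n1 : ‖u1‖ = 1) (n2 : ‖u2‖ = 1)
    (c1 : co u1 = (0, 1)) (c2 : co u2 = (1, 0)) (a : Perp u1 → ENNReal) (b : Perp u2 → ENNReal) :
    ∃ u3 : EuclideanSpace ℝ (Fin 2), ‖u3‖ = 1 ∧ ∀ K L, IsBody K → IsBody L → XRay u1 K = a →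
      XRay u1 L = a → XRay u2 K = b → XRay u2 L = b → XRay u3 K = XRay u3 L → K = L := by
  by_cases h : ∃ K0, IsBody K0 ∧ XRay u1 K0 = a ∧ XRay u2 K0 = b
  · obtain ⟨K0, h0, ha, hb⟩ := h
    obtain ⟨d, hd, H⟩ := XR.core (body_co h0)
    have hd' : co.symm d ≠ 0 := by simpa using hd
    have hn : ‖co.symm d‖ ≠ 0 := norm_ne_zero_iff.2 hd'
    have n3 : ‖‖co.symm d‖⁻¹ • co.symm d‖ = 1 := norm_smul_inv_norm hd'
    refine ⟨‖co.symm d‖⁻¹ • co.symm d, n3, fun K L hK hL e1 e2 e3 e4 e5 => ?_⟩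
    have s5 := XR.sameX_smul (sameX_co n3 e5) hn
    rw [map_smul, smul_smul, mul_inv_cancel₀ hn, one_smul, co.apply_symm_apply] at s5
    have := H (co '' K) (co '' L) (body_co hK) (body_co hL)
      (c1 ▸ sameX_co n1 (ha.trans e1.symm)) (c2 ▸ sameX_co n2 (hb.trans e3.symm))
      (c1 ▸ sameX_co n1 (ha.trans e2.symm)) (c2 ▸ sameX_co n2 (hb.trans e4.symm)) s5
    exact co.injective.image_injective this
  · exact ⟨u1, n1, fun K L hK _ e1 _ e3 _ _ => absurd ⟨K, hK, e1, e3⟩ h⟩

/-- There is a procedure (a unit vector `u1`, a rule `r2` choosing a unit vector from the first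
X-ray, a rule `r3` choosing a unit vector from the first two X-rays) such that two convex bodies
with the same X-rays in the three directions produced for `K` coincide. -/
theorem result : ∃ (u1 : EuclideanSpace ℝ (Fin 2))
    (r2 : (Perp u1 → ENNReal) → EuclideanSpace ℝ (Fin 2))
    (r3 : (a : Perp u1 → ENNReal) → (Perp (r2 a) → ENNReal) → EuclideanSpace ℝ (Fin 2)),
    ‖u1‖ = 1 ∧ (∀ a, ‖r2 a‖ = 1) ∧ (∀ a b, ‖r3 a b‖ = 1) ∧
    ∀ K L : Set (EuclideanSpace ℝ (Fin 2)), IsBody K → IsBody L →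
      XRay u1 K = XRay u1 L →
      XRay (r2 (XRay u1 K)) K = XRay (r2 (XRay u1 K)) L →
      XRay (r3 (XRay u1 K) (XRay (r2 (XRay u1 K)) K)) K =
        XRay (r3 (XRay u1 K) (XRay (r2 (XRay u1 K)) K)) L →
      K = L := by
  have n1 : ‖(EuclideanSpace.single 1 1 : EuclideanSpace ℝ (Fin 2))‖ = 1 := by simp
  have n2 : ‖(EuclideanSpace.single 0 1 : EuclideanSpace ℝ (Fin 2))‖ = 1 := by simp
  have c1 : co (EuclideanSpace.single 1 1) = (0, 1) := by simp [co]
  have c2 : co (EuclideanSpace.single 0 1) = (1, 0) := by simp [co]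
  choose r3 h3 H using exists_dir _ _ n1 n2 c1 c2
  exact ⟨_, fun _ => EuclideanSpace.single 0 1, r3, n1, fun _ => n2, h3,
    fun K L hK hL e1 e2 e3 => H _ _ K L hK hL rfl e1.symm rfl e2.symm e3⟩

end Pool.Agent.Results.MP_408b1f_gt.ThreeXRays
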